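import Pool.Agent.Run7.h914.IFm.Bez
import Pool.Agent.Run7.h914.IFm.S10

/-!
# The first zero of the gcd recursion with `n (n + 2 m)` for `m` a linear form in the coordinates of points modulo primes

`z(m) ≤ 4 m² - 2` is the first zero of the recursion `a_m` of the problem.

Let `p` be a large prime and let `0 < δ ≤ 1`, `ε > 0`.
(1) Let `F(x, y) = 0` be ANY absolutely irreducible plane curve over the field with `p` elements, not a line, of degree at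
most `p ^ (δ / 50)`, and consider its points in a box with sides between `p ^ δ` and `p` and of area at least
`p ^ (3 / 2 + δ)`.  Let `m = c₁ x + c₂ y + c₀` be ANY linear form with coprime coefficients `c₁, c₂` of absolute value at
most `p ^ (δ / 20)`.  Then the proportion of the points with `m > 0` and `4 m² - z(m) ≤ H` is at most
`C H ^ (1 + ε) / log ² p`, for every `H ≥ 1`.  So `4 m² - z(m) > log ^ (2 - ε) p` for almost all points.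
(2) The same for the solutions of the systems `P_1j(x_1) + … + P_nj(x_n) ≡ b_j` (`j ≤ k`) of Waring-Vinogradov type modulo
`p`, `n > 2 k`, in boxes of volume at least `p ^ (n / 2 + k + δ)`, and primitive linear forms of the solutions.

Proof.  The twisted sums `∑ e(α m)` over the points in the box are small unless `α` is close to an integer: completion with
the twists (library `IFm.Tw`) and Weil's bound (proved in Lean); hence `m` is equidistributed in the residue classes of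
all moduli up to a power of `p`.  A large first zero forces two quadratic polynomials of `m` to be prime: the sieve of
helper844 (fundamental lemma of helper90, theorem of Siegel and Walfisz for uniformity in `H`).
-/

set_option autoImplicit false

open Finset Filter Polynomial

namespace Pool.Agent.Results.MP_9227d9_nt.CurvesAndSystemsModP

/-- the recursion of the problem for the parameter `m`: `a_m(1) = 4 m²` and
`a_m(n) = |a_m(n-1) - gcd(a_m(n-1), n (n + 2m))|` for `n ≥ 2` (and `a_m(0) = 0`, not used) -/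
noncomputable def a (m : ℕ) : ℕ → ℤ
  | 0 => 0
  | 1 => 4 * (m : ℤ) ^ 2
  | (n + 2) => |a m (n + 1) - ((Int.gcd (a m (n + 1)) (((n + 2 : ℕ) : ℤ) * (((n + 2 : ℕ) : ℤ) + 2 * (m : ℤ))) : ℕ) : ℤ)|

/-- the first zero of `a_m` -/
noncomputable def z (m : ℕ) : ℕ := sInf {n : ℕ | 1 ≤ n ∧ a m n = 0}

/-- `m > 0` and `4 m² - z(m) ≤ H`. -/
def LateZero (H : ℕ) (m : ℤ) : Prop := 0 < m ∧ 4 * m.toNat ^ 2 ≤ z m.toNat + H

/-- The polynomial `F`, a polynomial in `y` whose coefficients are polynomials in `x`, is irreducible over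
the algebraic closure of the field with `p` elements. -/
def AbsIrreducible (p : ℕ) [Fact p.Prime] (F : (ZMod p)[X][X]) : Prop :=
  Irreducible (F.map (mapRingHom (algebraMap (ZMod p) (AlgebraicClosure (ZMod p)))))

/-- The total degree of `F` is at most `d`. -/
def DegreeLE {p : ℕ} (F : (ZMod p)[X][X]) (d : ℕ) : Prop :=
  ∀ i j, d < i + j → (F.coeff i).coeff j = 0

/-- The integer points of the box `(M₁, M₁ + L₁] × (M₂, M₂ + L₂]` on the curve `F = 0` modulo `p`. -/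
def CurvePoints {p : ℕ} (F : (ZMod p)[X][X]) (M₁ M₂ : ℤ) (L₁ L₂ : ℕ) : Set (ℤ × ℤ) :=
  {z | (M₁ < z.1 ∧ z.1 ≤ M₁ + L₁) ∧ (M₂ < z.2 ∧ z.2 ≤ M₂ + L₂) ∧ F.evalEval (z.1 : ZMod p) (z.2 : ZMod p) = 0}

/-- The integer points of the box `∏ (M_i, M_i + L_i]` which are solutions modulo `p` of the system `∑ᵢ P_ij(z_i) = b_j`. -/
def Solutions {p n k : ℕ} (P : Fin n → Fin k → (ZMod p)[X]) (b : Fin k → ZMod p) (M : Fin n → ℤ) (L : Fin n → ℕ) :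
    Set (Fin n → ℤ) :=
  {z | (∀ i, M i < z i ∧ z i ≤ M i + L i) ∧ ∀ j, ∑ i, (P i j).eval (z i : ZMod p) = b j}

/-- There are integers `u_j` with `∑ u_j c_j = 1` and `∑ |u_j| ≤ B`. -/
def Primitive {n : ℕ} (B : ℝ) (c : Fin n → ℤ) : Prop :=
  ∃ u : Fin n → ℤ, ∑ j, u j * c j = 1 ∧ (∑ j, |(u j : ℝ)|) ≤ B

lemma a_eq (m n : ℕ) : a m n = Run7.h914.IFm.RP.am m n := by
  induction n using Nat.strong_induction_on with
  | _ n ih =>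
    match n with
    | 0 => rw [a, Run7.h914.IFm.RP.am]
    | 1 => rw [a, Run7.h914.IFm.RP.am]
    | n + 2 => rw [a, Run7.h914.IFm.RP.am, ih (n + 1) (by omega)]

lemma z_eq (m : ℕ) : z m = Run7.h914.IFm.RP.zm m := by
  unfold z Run7.h914.IFm.RP.zm
  simp only [a_eq]

lemma bd (ε : ℝ) (hε : 0 < ε) : Run7.h914.IFm.FamBd LateZero (fun H : ℕ => (H : ℝ) ^ (1 + ε)) 2 := by
  have h : LateZero = fun (H : ℕ) (m : ℤ) => 0 < m ∧ 4 * m.toNat ^ 2 ≤ Run7.h914.IFm.RP.zm m.toNat + H := by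
    funext H m
    unfold LateZero
    rw [z_eq]
  rw [h]
  obtain ⟨C, hC, T₀, h1⟩ := Run7.h914.IFm.RP.fam9 ε hε
  refine ⟨C, hC, T₀, fun T hT ι s v hv H hH => ?_⟩
  have h2 := h1 T hT ι s v hv H hH
  convert h2

/-- the points of curves -/
theorem curves (Bad : ℕ → ℤ → Prop) (g : ℕ → ℝ) (hB : Run7.h914.IFm.FamBd Bad g 2) (δ : ℝ) (hδ : 0 < δ) (hδ1 : δ ≤ 1) :
    ∃ K : ℝ, 0 < K ∧ ∃ p₀ : ℕ, ∀ (p : ℕ) [Fact p.Prime], p₀ ≤ p →
      ∀ (d : ℕ) (F : (ZMod p)[X][X]), (d : ℝ) ≤ (p : ℝ) ^ (δ / 50) → DegreeLE F d → ¬ DegreeLE F 1 →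
        AbsIrreducible p F →
      ∀ (M₁ M₂ : ℤ) (L₁ L₂ : ℕ), (p : ℝ) ^ δ ≤ L₁ → L₁ ≤ p → (p : ℝ) ^ δ ≤ L₂ → L₂ ≤ p →
        (p : ℝ) ^ (3 / 2 + δ) ≤ L₁ * L₂ →
      ∀ (c₁ c₂ c₀ : ℤ), IsCoprime c₁ c₂ → |(c₁ : ℝ)| ≤ (p : ℝ) ^ (δ / 20) → |(c₂ : ℝ)| ≤ (p : ℝ) ^ (δ / 20) →
      ∀ H : ℕ, 1 ≤ H →
        (Set.ncard {z ∈ CurvePoints F M₁ M₂ L₁ L₂ | Bad H (c₁ * z.1 + c₂ * z.2 + c₀)} : ℝ) ≤
          K * g H * (Set.ncard (CurvePoints F M₁ M₂ L₁ L₂) / Real.log p ^ 2) := by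
  obtain ⟨K, hK, p₀, h⟩ := Run7.h914.IFm.curve_bad2 Bad g 2 hB δ hδ hδ1
  refine ⟨K, hK, p₀, ?_⟩
  intro p _ hp d F hd hF hF1 hirr M₁ M₂ L₁ L₂ l1 l2 l3 l4 hV c₁ c₂ c₀ hco hc1 hc2 H hH
  have hex : ∃ i j, 2 ≤ i + j ∧ (F.coeff i).coeff j ≠ 0 := by
    by_contra hc
    push Not at hc
    exact hF1 fun i j hij => hc i j (by omega)
  have key := h p hp d F hd hF hex hirr M₁ M₂ L₁ L₂ l1 l2 l3 l4 hV c₁ c₂ c₀ hco hc1 hc2 H hH
  have e : {z ∈ CurvePoints F M₁ M₂ L₁ L₂ | Bad H (c₁ * z.1 + c₂ * z.2 + c₀)} =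
      {z : ℤ × ℤ | (M₁ < z.1 ∧ z.1 ≤ M₁ + L₁) ∧ (M₂ < z.2 ∧ z.2 ≤ M₂ + L₂) ∧
        evalEval (z.1 : ZMod p) (z.2 : ZMod p) F = 0 ∧ Bad H (c₁ * z.1 + c₂ * z.2 + c₀)} := by
    ext z
    simp only [CurvePoints, Set.mem_setOf_eq, and_assoc]
  rw [e]
  exact key

/-- the solutions of systems -/
theorem systems (Bad : ℕ → ℤ → Prop) (g : ℕ → ℝ) (hB : Run7.h914.IFm.FamBd Bad g 2) (n k : ℕ) (hn : 2 * k < n)
    (δ : ℝ) (hδ : 0 < δ) (hδ1 : δ ≤ 1) :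
    ∃ K : ℝ, 0 < K ∧ ∃ p₀ : ℕ, ∀ (p : ℕ) [Fact p.Prime], p₀ ≤ p →
      ∀ (d : ℕ) (P : Fin n → Fin k → (ZMod p)[X]) (b : Fin k → ZMod p), (d : ℝ) ≤ (p : ℝ) ^ (δ / (50 * n)) →
      (∀ i j, (P i j).natDegree ≤ d) →
      (∀ i, ∀ (t : Fin k → ZMod p) (a c : ZMod p), ∑ j, C (t j) * P i j = C a * X + C c → t = 0) →
      ∀ (M : Fin n → ℤ) (L : Fin n → ℕ), (∀ j, (p : ℝ) ^ δ ≤ L j ∧ L j ≤ p) →
        (p : ℝ) ^ ((n : ℝ) / 2 + k + δ) ≤ ∏ j, (L j : ℝ) →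
      ∀ (c : Fin n → ℤ) (c₀ : ℤ), Primitive ((p : ℝ) ^ (δ / 16)) c → ∀ H : ℕ, 1 ≤ H →
        (Set.ncard {z ∈ Solutions P b M L | Bad H (∑ j, c j * z j + c₀)} : ℝ) ≤
          K * g H * (Set.ncard (Solutions P b M L) / Real.log p ^ 2) := by
  obtain ⟨K, hK, p₀, h⟩ := Run7.h914.IFm.sys_bad Bad g 2 hB n k hn δ hδ hδ1
  refine ⟨K, hK, p₀, ?_⟩
  intro p _ hp d P b hd hP hind M L hL hV c c₀ hc H hH
  obtain ⟨u, hu, hu2⟩ := hc
  have key := h p hp d P b hd hP hind M L hL hV c u c₀ hu hu2 H hH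
  have e : {z ∈ Solutions P b M L | Bad H (∑ j, c j * z j + c₀)} =
      {z : Fin n → ℤ | (∀ j, M j < z j ∧ z j ≤ M j + L j) ∧
        (∀ j, ∑ i, (P i j).eval (z i : ZMod p) = b j) ∧ Bad H (∑ j, c j * z j + c₀)} := by
    ext z
    simp only [Solutions, Set.mem_setOf_eq, and_assoc]
  rw [e]
  exact key

/-- **The first zero at linear forms in the coordinates of the points of plane curves and of the solutions of systems
modulo primes.** -/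
theorem result (ε : ℝ) (hε : 0 < ε) (δ : ℝ) (hδ : 0 < δ) (hδ1 : δ ≤ 1) :
    (∃ K : ℝ, 0 < K ∧ ∃ p₀ : ℕ, ∀ (p : ℕ) [Fact p.Prime], p₀ ≤ p →
      ∀ (d : ℕ) (F : (ZMod p)[X][X]), (d : ℝ) ≤ (p : ℝ) ^ (δ / 50) → DegreeLE F d → ¬ DegreeLE F 1 →
        AbsIrreducible p F →
      ∀ (M₁ M₂ : ℤ) (L₁ L₂ : ℕ), (p : ℝ) ^ δ ≤ L₁ → L₁ ≤ p → (p : ℝ) ^ δ ≤ L₂ → L₂ ≤ p →
        (p : ℝ) ^ (3 / 2 + δ) ≤ L₁ * L₂ →
      ∀ (c₁ c₂ c₀ : ℤ), IsCoprime c₁ c₂ → |(c₁ : ℝ)| ≤ (p : ℝ) ^ (δ / 20) → |(c₂ : ℝ)| ≤ (p : ℝ) ^ (δ / 20) →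
      ∀ H : ℕ, 1 ≤ H →
        (Set.ncard {z ∈ CurvePoints F M₁ M₂ L₁ L₂ | LateZero H (c₁ * z.1 + c₂ * z.2 + c₀)} : ℝ) ≤
          K * (H : ℝ) ^ (1 + ε) * (Set.ncard (CurvePoints F M₁ M₂ L₁ L₂) / Real.log p ^ 2)) ∧
    (∀ n k : ℕ, 2 * k < n → ∃ K : ℝ, 0 < K ∧ ∃ p₀ : ℕ, ∀ (p : ℕ) [Fact p.Prime], p₀ ≤ p →
      ∀ (d : ℕ) (P : Fin n → Fin k → (ZMod p)[X]) (b : Fin k → ZMod p), (d : ℝ) ≤ (p : ℝ) ^ (δ / (50 * n)) →
      (∀ i j, (P i j).natDegree ≤ d) →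
      (∀ i, ∀ (t : Fin k → ZMod p) (a c : ZMod p), ∑ j, C (t j) * P i j = C a * X + C c → t = 0) →
      ∀ (M : Fin n → ℤ) (L : Fin n → ℕ), (∀ j, (p : ℝ) ^ δ ≤ L j ∧ L j ≤ p) →
        (p : ℝ) ^ ((n : ℝ) / 2 + k + δ) ≤ ∏ j, (L j : ℝ) →
      ∀ (c : Fin n → ℤ) (c₀ : ℤ), Primitive ((p : ℝ) ^ (δ / 16)) c → ∀ H : ℕ, 1 ≤ H →
        (Set.ncard {z ∈ Solutions P b M L | LateZero H (∑ j, c j * z j + c₀)} : ℝ) ≤
          K * (H : ℝ) ^ (1 + ε) * (Set.ncard (Solutions P b M L) / Real.log p ^ 2)) :=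
  ⟨curves LateZero (fun H : ℕ => (H : ℝ) ^ (1 + ε)) (bd ε hε) δ hδ hδ1,
    fun n k hn => systems LateZero (fun H : ℕ => (H : ℝ) ^ (1 + ε)) (bd ε hε) n k hn δ hδ hδ1⟩

end Pool.Agent.Results.MP_9227d9_nt.CurvesAndSystemsModP
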