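import Pool.Agent.Run7.h844.RP.PwS10

/-!
# The gcd recursion with `n (n + 2m)`: the typical size of the first zero

The value at `1` is `4 m²`, and every step decreases the value, so that the first zero `z(m)` is at most `4 m² - 2`. It is
shown that `z(m)` is rarely close to this bound: `4 m² - z(m) ≤ H` for at most `C H ^ (1 + ε) X / log ² X` of the `m ≤ X`, with
`C` depending only on `ε > 0`. For `H = 1` this is the expected order, and `z(m) < 4 m² - log ^ (2 - ε) m` for almost all `m`.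

Method. As in the starting result `LongDescent` (`Pool.Agent.H399R2`) for the descents between zeros, a first zero near the
maximum forces `z + 1` and `z + 2m + 1` to be prime. With `e = 4 m² - z - 1` these are the values `4 m² - e` and `4 m² + 2m - e` of
two quadratic polynomials in `m`. An upper bound sieve (fundamental lemma of `Pool.Agent.Run7.h90.AP`) gives the bound
`C X ∏ (1 - ρ_e(p) / p)`, where `ρ_e(p) = 2 + (e / p) + (4e + 1 / p)` up to the divisors of `2 e`; the product is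
`≤ C e ^ ε / log ² X` uniformly in `e`, by the theorem of Siegel and Walfisz for the quadratic characters modulo `4 e` and
`4 (4e + 1)`, unless `e` or `4 e + 1` is a square, when one of the two polynomials is reducible.
-/

set_option autoImplicit false

open Finset Filter

namespace Pool.Agent.Results.MP_9227d9_nt.FirstZero

/-- the recursion of the problem for the parameter `m`: `a_m(1) = 4 m²` and
`a_m(n) = |a_m(n-1) - gcd(a_m(n-1), n (n + 2m))|` for `n ≥ 2` (and `a_m(0) = 0`, not used) -/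
noncomputable def a (m : ℕ) : ℕ → ℤ
  | 0 => 0
  | 1 => 4 * (m : ℤ) ^ 2
  | (n + 2) => |a m (n + 1) - ((Int.gcd (a m (n + 1)) (((n + 2 : ℕ) : ℤ) * (((n + 2 : ℕ) : ℤ) + 2 * (m : ℤ))) : ℕ) : ℤ)|

/-- the first zero of `a_m` -/
noncomputable def z (m : ℕ) : ℕ := sInf {n : ℕ | 1 ≤ n ∧ a m n = 0}

lemma a_eq (m n : ℕ) : a m n = Pool.Agent.Run7.h844.RP.am m n := by
  induction n using Nat.strong_induction_on with
  | _ n ih =>
    match n with
    | 0 => rw [a, Pool.Agent.Run7.h844.RP.am]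
    | 1 => rw [a, Pool.Agent.Run7.h844.RP.am]
    | n + 2 => rw [a, Pool.Agent.Run7.h844.RP.am, ih (n + 1) (by omega)]

lemma z_eq (m : ℕ) : z m = Pool.Agent.Run7.h844.RP.zm m := by
  unfold z Pool.Agent.Run7.h844.RP.zm
  simp only [a_eq]

lemma small_bound (X : ℕ) (hX : 2 ≤ X) : 1 / 4 ≤ X / Real.log X ^ 2 := by
  have hX' : (2 : ℝ) ≤ X := by exact_mod_cast hX
  have hl : 0 < Real.log X := Real.log_pos (by linarith)
  rw [div_le_div_iff₀ (by norm_num) (by positivity), one_mul]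
  have h1 : Real.log X ≤ 2 * (X : ℝ) ^ (1 / 2 : ℝ) := by
    have h2 := Real.log_le_rpow_div (x := (X : ℝ)) (by linarith) (ε := 1 / 2) (by norm_num)
    have e : (X : ℝ) ^ (1 / 2 : ℝ) / (1 / 2) = 2 * (X : ℝ) ^ (1 / 2 : ℝ) := by ring
    rw [e] at h2
    exact h2
  calc Real.log X ^ 2 ≤ (2 * (X : ℝ) ^ (1 / 2 : ℝ)) ^ 2 := pow_le_pow_left₀ hl.le h1 2
    _ = 4 * ((X : ℝ) ^ (1 / 2 : ℝ)) ^ 2 := by ring
    _ = 4 * (X : ℝ) := by
      rw [← Real.rpow_natCast, ← Real.rpow_mul (by linarith)]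
      norm_num
    _ = (X : ℝ) * 4 := by ring

open Classical in
/-- Let `z(m)` be the first zero of the recursion `a_m` of the problem (`z(m) ≤ 4 m² - 2`). For every `ε > 0` there is `C` such
that for all `X ≥ 2` and `H ≥ 1` at most `C H ^ (1 + ε) X / log ² X` of the `m ≤ X` have `4 m² - z(m) ≤ H`. Hence
`z(m) < 4 m² - log ^ (2 - ε) m` for almost all `m`. -/
theorem result (ε : ℝ) (hε : 0 < ε) : ∃ C : ℝ, 0 < C ∧ ∀ X : ℕ, 2 ≤ X → ∀ H : ℕ, 1 ≤ H →
    (((Icc 1 X).filter fun m : ℕ => 4 * m ^ 2 ≤ z m + H).card : ℝ) ≤ C * (H : ℝ) ^ (1 + ε) * (X / Real.log X ^ 2) := by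
  obtain ⟨C, hC, T₀, h⟩ := Pool.Agent.Run7.h844.RP.fam9 ε hε
  obtain ⟨X₀, hX₀⟩ : ∃ X₀ : ℕ, X₀ = ⌈T₀⌉₊ := ⟨_, rfl⟩
  have hX₀r : (0 : ℝ) ≤ X₀ := Nat.cast_nonneg _
  refine ⟨C + 4 * X₀, by linarith, fun X hX H hH => ?_⟩
  have hH1 : (1 : ℝ) ≤ H := by exact_mod_cast hH
  have hHε : 1 ≤ (H : ℝ) ^ (1 + ε) := Real.one_le_rpow hH1 (by linarith)
  have hsm := small_bound X hX
  have hY : 0 ≤ (X : ℝ) / Real.log X ^ 2 := by linarith
  by_cases hXX : X₀ ≤ X
  · have h1 := h X ((Nat.le_ceil T₀).trans (by rw [← hX₀]; exact_mod_cast hXX)) ℕ (Icc 1 X) (fun n : ℕ => (n : ℤ))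
      (Pool.Agent.Run7.h844.RP.IF_id X (by omega)) H hH
    rw [Nat.card_Icc, Nat.add_sub_cancel] at h1
    have h2 : (Icc 1 X).filter (fun m : ℕ => 4 * m ^ 2 ≤ z m + H) ⊆
        (Icc 1 X).filter (fun i : ℕ => 0 < (i : ℤ) ∧ 4 * (i : ℤ).toNat ^ 2 ≤ Pool.Agent.Run7.h844.RP.zm (i : ℤ).toNat + H) := by
      intro m hm
      rw [mem_filter] at hm ⊢
      rw [Int.toNat_natCast, ← z_eq]
      have := (mem_Icc.1 hm.1).1
      exact ⟨hm.1, by omega, hm.2⟩
    have h3 : (((Icc 1 X).filter fun m : ℕ => 4 * m ^ 2 ≤ z m + H).card : ℝ) ≤ C * (H : ℝ) ^ (1 + ε) * (X / Real.log X ^ 2) := by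
      refine le_trans ?_ h1
      exact_mod_cast card_le_card h2
    refine h3.trans ?_
    have h4 : 0 ≤ 4 * X₀ * (H : ℝ) ^ (1 + ε) * (X / Real.log X ^ 2) := by positivity
    linarith
  · push Not at hXX
    have h1 : (((Icc 1 X).filter fun m : ℕ => 4 * m ^ 2 ≤ z m + H).card : ℝ) ≤ X₀ := by
      have : ((Icc 1 X).filter fun m : ℕ => 4 * m ^ 2 ≤ z m + H).card ≤ X₀ := by
        refine (card_filter_le _ _).trans ?_
        rw [Nat.card_Icc]
        omega
      exact_mod_cast this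
    refine h1.trans ?_
    have h2 : (X₀ : ℝ) ≤ 4 * X₀ * (X / Real.log X ^ 2) := by nlinarith
    have h3 : 4 * X₀ * ((X : ℝ) / Real.log X ^ 2) ≤ 4 * X₀ * (H : ℝ) ^ (1 + ε) * (X / Real.log X ^ 2) := by
      apply mul_le_mul_of_nonneg_right _ hY
      nlinarith
    have h4 : 0 ≤ C * (H : ℝ) ^ (1 + ε) * (X / Real.log X ^ 2) := by positivity
    linarith

end Pool.Agent.Results.MP_9227d9_nt.FirstZero
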