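import Pool.Agent.Run7.h672.WT.W
import Pool.Agent.Run7.h672.WT.X
import Pool.Agent.Run7.h844.RP.PwS8
import Pool.Agent.Run7.h844.RP.PwS9

/-!
# The gcd recursion with `n (n + 2m)`: the typical size of the first zero, for random `m` written by independent random words

The value at `1` is `4 m²`, and every step decreases the value, so that the first zero `z(m)` is at most `4 m² - 2`. It is
shown that `z(m)` is rarely close to this bound for random integers `m = c + κ v`, `v` written by independent random words. The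
definitions `len`, `Words`, `cat`, `noRest`, `cutWord`, `WordLaw` are in `Pool.Agent.Run7.h672.CC.Defs`.

Method: a first zero near the maximum forces `z + 1` and `z + 2m + 1` to be prime; with `e = 4 m² - z - 1` these are the values
`4 m² - e` and `4 m² + 2m - e` (`FirstZero`, helper844, from the starting result `LongDescent`). The exponential sums of a random
integer written by random words are small at all the fractions with denominators up to `exp (δ √k)` without small prime factors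
(`Pool.Agent.Run7.h672.CC`, by a strong renewal theorem and the exchange of two words which do not commute), hence the
fundamental lemma of the sieve applies with all the primes up to `exp (δ √k)` (`Pool.Agent.Run7.h672.WT`). The sieve product is
`≤ C e ^ ε / k` uniformly in `e` by the lemma `Q2_sum` of helper844 (theorem of Siegel and Walfisz).
-/

set_option autoImplicit false

open Finset
open Pool.Agent.Run7.h672.CC
open Pool.Agent.Run7.h672.WT
open Pool.Agent.Run7.h844.RP (Q2 Q2_per rq_Q2_le Q2_sum zm_pair sq_case1 sq_case2 rq)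

namespace Pool.Agent.Results.MP_9227d9_nt.FirstZeroWords

/-- the recursion of the problem for the parameter `m`: `a_m(1) = 4 m²` and
`a_m(n) = |a_m(n-1) - gcd(a_m(n-1), n (n + 2m))|` for `n ≥ 2` (and `a_m(0) = 0`, not used) -/
noncomputable def a (m : ℕ) : ℕ → ℤ
  | 0 => 0
  | 1 => 4 * (m : ℤ) ^ 2
  | (n + 2) => |a m (n + 1) - ((Int.gcd (a m (n + 1)) (((n + 2 : ℕ) : ℤ) * (((n + 2 : ℕ) : ℤ) + 2 * (m : ℤ))) : ℕ) : ℤ)|

/-- the first zero of `a_m` -/
noncomputable def z (m : ℕ) : ℕ := sInf {n : ℕ | 1 ≤ n ∧ a m n = 0}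

lemma a_eq (m n : ℕ) : a m n = Pool.Agent.Run7.h844.RP.am m n := by
  induction n using Nat.strong_induction_on with
  | _ n ih =>
    match n with
    | 0 => rw [a, Pool.Agent.Run7.h844.RP.am]
    | 1 => rw [a, Pool.Agent.Run7.h844.RP.am]
    | n + 2 => rw [a, Pool.Agent.Run7.h844.RP.am, ih (n + 1) (by omega)]

lemma z_eq (m : ℕ) : z m = Pool.Agent.Run7.h844.RP.zm m := by
  unfold z Pool.Agent.Run7.h844.RP.zm
  simp only [a_eq]

/-- both values are prime -/
def Bp (m e : ℕ) : Prop := (4 * (m : ℤ) ^ 2 - e).toNat.Prime ∧ (4 * (m : ℤ) ^ 2 + 2 * m - e).toNat.Prime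

open Classical in
/-- Let `q` be the law of a random word in base `b` (`Words b q`: any language, finite or infinite, lengths with an
exponential moment and without a common divisor, and two words which do not commute), `κ ≥ 1` and `ε > 0`. There is a constant
`C` such that for all `k ≥ 1`, for every random integer `v < b ^ k` whose `k` digits are written by independent random words
with the law `q`, conditioned on the total length `k`, or cut after `k` digits (`WordLaw b q k p`), for EVERY integer `c ≥ 0`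
and every integer `H ≥ 1`: the probability that `m = c + κ v` satisfies `m ≥ 1` and `4 m² - z(m) ≤ H` is at most
`C H ^ (1 + ε) / k`. -/
theorem result (b : ℕ) (q : ℕ → ℕ → ℝ) (hq : Words b q) (κ : ℕ) (hκ : 1 ≤ κ) (ε : ℝ) (hε : 0 < ε) :
    ∃ C : ℝ, 0 < C ∧ ∀ k : ℕ, 1 ≤ k → ∀ p : ℕ → ℝ, WordLaw b q k p → ∀ c H : ℕ, 1 ≤ H →
      ∑ v ∈ range (b ^ k), (if 1 ≤ c + κ * v ∧ 4 * (c + κ * v) ^ 2 ≤ z (c + κ * v) + H then p v else 0) ≤
        C * (H : ℝ) ^ (1 + ε) / k := by
  obtain ⟨L, T, hcls⟩ := Pool.Agent.Run7.h672.XC.word_rcls hq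
  obtain ⟨C, η, hC, hη, k1, h1⟩ := law_gen hcls 4 1 κ hκ
  obtain ⟨C₁, hC₁, hQ⟩ := Q2_sum ε hε
  obtain ⟨k2, h2⟩ := word_small hq κ hκ 0
  obtain ⟨k3, h3⟩ := ev_exp 3 2300 (by norm_num)
  obtain ⟨k₀, hk₀⟩ : ∃ k₀, k₀ = max (max k1 k2) k3 := ⟨_, rfl⟩
  obtain ⟨D, hD⟩ : ∃ D, D = C * Real.exp C₁ / η ^ 2 := ⟨_, rfl⟩
  have hD0 : 0 < D := by rw [hD]; positivity
  refine ⟨D + 2 + k₀, by positivity, fun k hk p hp c H hH => ?_⟩
  have hk0 : (0 : ℝ) < k := by exact_mod_cast (by omega : 0 < k)
  have hk1 : (1 : ℝ) ≤ k := by exact_mod_cast hk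
  obtain ⟨s, hs⟩ : ∃ s, s = Real.sqrt k := ⟨_, rfl⟩
  have hss : s * s = k := by rw [hs]; exact Real.mul_self_sqrt hk0.le
  have hs1 : 1 ≤ s := by rw [hs]; exact Real.one_le_sqrt.2 hk1
  have hs0 : 0 < s := by linarith
  have hp0 : ∀ v, 0 ≤ p v := law_nonneg hq hp
  have hH1 : (1 : ℝ) ≤ H := by exact_mod_cast hH
  have hHε : (H : ℝ) ^ (1 + ε) = H * (H : ℝ) ^ ε := by
    rw [Real.rpow_add (by linarith), Real.rpow_one]
  have hHε1 : 1 ≤ (H : ℝ) ^ ε := Real.one_le_rpow hH1 hε.le
  have hHH : (H : ℝ) ≤ (H : ℝ) ^ (1 + ε) := by rw [hHε]; nlinarith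
  have hH11 : 1 ≤ (H : ℝ) ^ (1 + ε) := hH1.trans hHH
  have htot : ∑ v ∈ range (b ^ k), (if 1 ≤ c + κ * v ∧ 4 * (c + κ * v) ^ 2 ≤ z (c + κ * v) + H then p v else 0) ≤ 1 := by
    rw [← law_sum hp]
    apply sum_le_sum
    intro v _
    split_ifs
    · exact le_rfl
    · exact hp0 v
  have hk₀0 : (0 : ℝ) ≤ k₀ := Nat.cast_nonneg _
  by_cases hbig : k < k₀
  · refine htot.trans ?_
    rw [le_div_iff₀ hk0, one_mul]
    have e1 : (k : ℝ) ≤ k₀ := by exact_mod_cast hbig.le
    nlinarith
  push Not at hbig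
  by_cases hts : k < H
  · refine htot.trans ?_
    rw [le_div_iff₀ hk0, one_mul]
    have e1 : (k : ℝ) ≤ H := by exact_mod_cast hts.le
    nlinarith
  push Not at hts
  have hHs : (H : ℝ) ≤ s * s := by rw [hss]; exact_mod_cast hts
  obtain ⟨g1, g2⟩ := h3 k (by omega)
  rw [← hs] at g1 g2
  have hs23 : s * s ≤ s ^ 3 := by
    have : s ^ 3 = s * s * s := by ring
    nlinarith
  have h13 : 1 ≤ s ^ 3 := one_le_pow₀ hs1
  obtain ⟨y, hy3, hly, h1'⟩ := h1 k (by omega)
  rw [← hs] at hly
  obtain ⟨Es, hEs⟩ : ∃ Es, Es = (range (b ^ k)).filter (fun v => 1 ≤ c + κ * v ∧ ((c + κ * v : ℕ) : ℝ) ≤ 2 * Real.exp s) := ⟨_, rfl⟩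
  obtain ⟨Eh, hEh⟩ : ∃ Eh : ℕ → Finset ℕ, Eh = fun e : ℕ => (range (b ^ k)).filter (fun v : ℕ =>
      2 * Real.exp s < ((c + κ * v : ℕ) : ℝ) ∧ Bp (c + κ * v) e) := ⟨_, rfl⟩
  have hlarge : ∀ m : ℕ, 2 * Real.exp s < (m : ℝ) → ∀ e : ℕ, e ≤ H → e + 8 ≤ m := by
    intro m hm e he
    have her : (e : ℝ) ≤ H := by exact_mod_cast he
    have : (e : ℝ) + 8 ≤ m := by linarith
    exact_mod_cast this
  have hpt : ∀ v ∈ range (b ^ k), (if 1 ≤ c + κ * v ∧ 4 * (c + κ * v) ^ 2 ≤ z (c + κ * v) + H then p v else 0) ≤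
      (if v ∈ Es then p v else 0) + ∑ e ∈ Icc 1 H, (if v ∈ Eh e then p v else 0) := by
    intro v hv
    have hn1 : ∀ h, (0 : ℝ) ≤ if v ∈ Eh h then p v else 0 := by
      intro h
      split_ifs
      · exact hp0 v
      · exact le_rfl
    have hn2 : (0 : ℝ) ≤ ∑ h ∈ Icc 1 H, (if v ∈ Eh h then p v else 0) := sum_nonneg fun h _ => hn1 h
    have hn3 : (0 : ℝ) ≤ if v ∈ Es then p v else 0 := by
      split_ifs
      · exact hp0 v
      · exact le_rfl
    by_cases hc : 1 ≤ c + κ * v ∧ 4 * (c + κ * v) ^ 2 ≤ z (c + κ * v) + H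
    · rw [if_pos hc]
      obtain ⟨c1, c2⟩ := hc
      by_cases hsm : ((c + κ * v : ℕ) : ℝ) ≤ 2 * Real.exp s
      · have : v ∈ Es := by
          rw [hEs, mem_filter]
          exact ⟨hv, c1, hsm⟩
        rw [if_pos this]
        linarith
      · push Not at hsm
        rw [z_eq] at c2
        obtain ⟨e, he1, he2, he3, he4⟩ := zm_pair (c + κ * v) H (hlarge _ hsm H le_rfl) c2
        have hmem : v ∈ Eh e := by
          rw [hEh]
          simp only
          rw [mem_filter]
          exact ⟨hv, hsm, he3, he4⟩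
        have hsg : p v ≤ ∑ h ∈ Icc 1 H, (if v ∈ Eh h then p v else 0) := by
          refine le_trans (le_of_eq ?_) (single_le_sum (fun h _ => hn1 h) (mem_Icc.2 ⟨he1, he2⟩))
          rw [if_pos hmem]
        linarith
    · rw [if_neg hc]
      linarith
  have hsum := sum_le_sum hpt
  rw [sum_add_distrib, sum_comm] at hsum
  have hS : ∑ v ∈ range (b ^ k), (if v ∈ Es then p v else 0) ≤ 1 / k := by
    rw [sum_ite_mem]
    refine (h2 k (by omega) p hp c (range (b ^ k) ∩ Es) (fun v hv => ?_)).trans (le_of_eq ?_)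
    · obtain ⟨q1, q2⟩ := mem_inter.1 hv
      rw [hEs, mem_filter] at q2
      rw [← hs]
      exact ⟨mem_range.1 q1, q2.2⟩
    · rw [zero_add, pow_one]
  have hh : ∀ e ∈ Icc 1 H, ∑ v ∈ range (b ^ k), (if v ∈ Eh e then p v else 0) ≤ (D + 1) * (H : ℝ) ^ ε / k := by
    intro e he
    rw [mem_Icc] at he
    have her : (1 : ℝ) ≤ e := by exact_mod_cast he.1
    have heH : (e : ℝ) ≤ H := by exact_mod_cast he.2
    rw [sum_ite_mem]
    have hmem : ∀ v ∈ range (b ^ k) ∩ Eh e, v < b ^ k ∧ 2 * Real.exp s < ((c + κ * v : ℕ) : ℝ) ∧ Bp (c + κ * v) e := by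
      intro v hv
      obtain ⟨q1, q2⟩ := mem_inter.1 hv
      rw [hEh] at q2
      simp only at q2
      rw [mem_filter] at q2
      exact ⟨mem_range.1 q1, q2.2⟩
    by_cases hsq : IsSquare (e : ℤ) ∨ IsSquare (4 * (e : ℤ) + 1)
    · have hempty : range (b ^ k) ∩ Eh e = ∅ := by
        rw [eq_empty_iff_forall_notMem]
        intro v hv
        obtain ⟨_, r2, r3, r4⟩ := hmem v hv
        have r5 := hlarge _ r2 e he.2
        have r6 : ((c + κ * v : ℕ) : ℤ) ≤ (e : ℤ) := by
          rcases hsq with h | h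
          · exact sq_case1 e _ (by exact_mod_cast he.1) h (by omega) r3
          · exact sq_case2 e _ (by exact_mod_cast he.1) h (by omega) r4
        omega
      rw [hempty, sum_empty]
      positivity
    · push Not at hsq
      have h4 := h1' p hp (Q2 e) (Q2_per e) (rq_Q2_le e) c (range (b ^ k) ∩ Eh e) (by
        intro v hv
        obtain ⟨r1, r2, r3, r4⟩ := hmem v hv
        refine ⟨r1, fun q hqp hqe hQ2 => ?_⟩
        rw [← hs] at hqe
        have ecast : (c : ℤ) + (κ : ℤ) * v = ((c + κ * v : ℕ) : ℤ) := by push_cast; ring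
        rw [ecast] at hQ2
        have hval : ∀ w : ℤ, w.toNat.Prime → (q : ℤ) ∣ w → (w : ℝ) ≤ Real.exp s := by
          intro w hw hpw
          have e2 := hw.two_le
          have e3 : (w.toNat : ℤ) = w := Int.toNat_of_nonneg (by omega)
          have e4 : q ∣ w.toNat := by
            rw [← Int.natCast_dvd_natCast, e3]
            exact hpw
          have e5 := (Nat.prime_dvd_prime_iff_eq hqp hw).1 e4
          have e6 : (w : ℝ) = q := by
            rw [e5]
            exact_mod_cast e3.symm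
          rw [e6]
          exact hqe
        obtain ⟨m, hm⟩ : ∃ m, m = c + κ * v := ⟨_, rfl⟩
        rw [← hm] at r2 r3 r4 hQ2
        have r5 := hlarge m r2 e he.2
        have r5r : (e : ℝ) + 8 ≤ m := by exact_mod_cast r5
        have r6 : (m : ℝ) ≤ 4 * (m : ℝ) ^ 2 - e := by
          have : (8 : ℝ) ≤ m := by linarith
          nlinarith
        have hex := Real.exp_pos s
        rcases hQ2 with hQ2 | hQ2
        · have r7 := hval _ r3 hQ2
          push_cast at r7
          linarith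
        · have r7 := hval _ r4 hQ2
          push_cast at r7
          linarith)
      have h6 := hQ e he.1 hsq.1 hsq.2 y hy3
      have hly0 : 0 < η * s := by positivity
      have hly1 : 0 < Real.log y := hly0.trans_le hly
      have heε : (e : ℝ) ^ ε ≤ (H : ℝ) ^ ε := Real.rpow_le_rpow (by linarith) heH hε.le
      have h7 : Real.exp (-∑ p ∈ Pool.Agent.H373R2.T7.pz y, (rq (Q2 e) p : ℝ) / p) ≤ Real.exp C₁ / η ^ 2 * (e : ℝ) ^ ε / k := by
        have e1 : Real.exp (-∑ p ∈ Pool.Agent.H373R2.T7.pz y, (rq (Q2 e) p : ℝ) / p) ≤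
            Real.exp (-(2 * Real.log (Real.log y)) + (ε * Real.log e + C₁)) := by
          apply Real.exp_le_exp.2
          linarith
        refine e1.trans ?_
        have e2 : Real.exp (-(2 * Real.log (Real.log y)) + (ε * Real.log e + C₁)) = (Real.log y ^ 2)⁻¹ * ((e : ℝ) ^ ε * Real.exp C₁) := by
          rw [Real.exp_add, Real.exp_add, Real.exp_neg]
          congr 2
          · congr 1
            have : 2 * Real.log (Real.log y) = Real.log (Real.log y ^ 2) := by
              rw [Real.log_pow]; norm_num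
            rw [this, Real.exp_log (by positivity)]
          · rw [Real.rpow_def_of_pos (by linarith)]
            congr 1
            ring
        rw [e2]
        have e3 : (Real.log y ^ 2)⁻¹ ≤ ((η * s) ^ 2)⁻¹ := by
          apply inv_anti₀ (by positivity)
          exact pow_le_pow_left₀ hly0.le hly 2
        calc (Real.log y ^ 2)⁻¹ * ((e : ℝ) ^ ε * Real.exp C₁) ≤ ((η * s) ^ 2)⁻¹ * ((e : ℝ) ^ ε * Real.exp C₁) :=
              mul_le_mul_of_nonneg_right e3 (by positivity)
          _ = _ := by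
              rw [mul_pow, ← hss]
              field_simp
      rw [pow_one] at h4
      calc ∑ v ∈ range (b ^ k) ∩ Eh e, p v ≤ C * (Real.exp C₁ / η ^ 2 * (e : ℝ) ^ ε / k) + 1 / k :=
            h4.trans (add_le_add (mul_le_mul_of_nonneg_left h7 hC.le) le_rfl)
        _ = (D * (e : ℝ) ^ ε + 1) / k := by
            rw [hD]
            ring
        _ ≤ (D + 1) * (H : ℝ) ^ ε / k := by
            apply div_le_div_of_nonneg_right _ hk0.le
            nlinarith
  have hS2 := sum_le_sum hh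
  rw [sum_const, Nat.card_Icc, Nat.add_sub_cancel, nsmul_eq_mul] at hS2
  have h5 : (H : ℝ) * ((D + 1) * (H : ℝ) ^ ε / k) = (D + 1) * (H : ℝ) ^ (1 + ε) / k := by
    rw [hHε]
    ring
  rw [h5] at hS2
  have h6 : 1 / (k : ℝ) ≤ (H : ℝ) ^ (1 + ε) / k := div_le_div_of_nonneg_right hH11 hk0.le
  have h7 : (D + 2 + k₀) * (H : ℝ) ^ (1 + ε) / k = (H : ℝ) ^ (1 + ε) / k + (D + 1) * (H : ℝ) ^ (1 + ε) / k +
      k₀ * (H : ℝ) ^ (1 + ε) / k := by ring
  have h8 : 0 ≤ k₀ * (H : ℝ) ^ (1 + ε) / k := by positivity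
  rw [h7]
  linarith

end Pool.Agent.Results.MP_9227d9_nt.FirstZeroWords
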