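import Pool.Agent.Run7.h844.RP.PwS10

/-!
# The gcd recursion with `n (n + 2m)` at the values of generalised polynomials at primes: the size of the first zero

Method: exponential sums over primes with the phase of a generalised polynomial: derivative bounds uniform in the
coefficients, van der Corput differencing of all orders, bilinear sums, Vaughan's identity (after `Pool.Agent.H895R3.NK`,
`Pool.Agent.H373R2.T7`), with a power saving at all frequencies up to a power, and a discrete Fejér kernel for the passage to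
the integer parts (library `Pool.Agent.Run7.h844.RP`). Hence the integer parts are
equidistributed in the residue classes modulo all integers up to a power, and the fundamental lemma of the sieve
(`Pool.Agent.Run7.h90.AP`) gives an upper bound for the number of the pairs of primes `4 N² - e`, `4 N² + 2 N - e`, uniform in
`e` by the theorem of Siegel and Walfisz for the quadratic characters modulo `4 e` and `4 (4 e + 1)` (see `FirstZero`).
-/

set_option autoImplicit false

open Finset Filter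

namespace Pool.Agent.Results.MP_9227d9_nt.ValuesAtPrimes

/-- The generalised polynomial `∑ a x * t ^ x`, `x ∈ F`, with real exponents and coefficients. -/
noncomputable def genPoly (F : Finset ℝ) (a : ℝ → ℝ) (t : ℝ) : ℝ := ∑ x ∈ F, a x * t ^ x

/-- `c` is the largest exponent; it is positive and not an integer, and its coefficient is not zero. -/
def Leading (F : Finset ℝ) (a : ℝ → ℝ) (c : ℝ) : Prop :=
  c ∈ F ∧ (∀ x ∈ F, x ≤ c) ∧ 0 < c ∧ (∀ m : ℕ, c ≠ m) ∧ a c ≠ 0

/-- the recursion of the problem for the parameter `m`: `a_m(1) = 4 m²` and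
`a_m(n) = |a_m(n-1) - gcd(a_m(n-1), n (n + 2m))|` for `n ≥ 2` (and `a_m(0) = 0`, not used) -/
noncomputable def a (m : ℕ) : ℕ → ℤ
  | 0 => 0
  | 1 => 4 * (m : ℤ) ^ 2
  | (n + 2) => |a m (n + 1) - ((Int.gcd (a m (n + 1)) (((n + 2 : ℕ) : ℤ) * (((n + 2 : ℕ) : ℤ) + 2 * (m : ℤ))) : ℕ) : ℤ)|

/-- the first zero of `a_m` -/
noncomputable def z (m : ℕ) : ℕ := sInf {n : ℕ | 1 ≤ n ∧ a m n = 0}

lemma a_eq (m n : ℕ) : a m n = Pool.Agent.Run7.h844.RP.am m n := by
  induction n using Nat.strong_induction_on with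
  | _ n ih =>
    match n with
    | 0 => rw [a, Pool.Agent.Run7.h844.RP.am]
    | 1 => rw [a, Pool.Agent.Run7.h844.RP.am]
    | n + 2 => rw [a, Pool.Agent.Run7.h844.RP.am, ih (n + 1) (by omega)]

lemma z_eq (m : ℕ) : z m = Pool.Agent.Run7.h844.RP.zm m := by
  unfold z Pool.Agent.Run7.h844.RP.zm
  simp only [a_eq]

open Classical in
/-- Let `g(t) = ∑ c x t ^ x` be a generalised polynomial (real exponents and coefficients) whose largest exponent `e` is
positive and not an integer, and let `ε > 0`. There are `C` and `X₀` such that for all `X ≥ X₀`, for EVERY real number `w` and all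
`H ≥ 1` at most the proportion `C H ^ (1 + ε) / log ^ 2 X` of the primes `q` with `X < q ≤ 2 X` have the property that
`m = ⌊g(q) + w⌋ ≥ 1` and `4 m² - z(m) ≤ H`, where `z(m) ≤ 4 m² - 2` is the first zero of the recursion `a_m`. -/
theorem result (F : Finset ℝ) (c : ℝ → ℝ) (e : ℝ) (hF : Leading F c e) (ε : ℝ) (hε : 0 < ε) :
    ∃ C : ℝ, 0 < C ∧ ∃ X₀ : ℕ, ∀ X : ℕ, X₀ ≤ X → ∀ w : ℝ, ∀ H : ℕ, 1 ≤ H →
    (((Ioc X (2 * X)).filter (fun q : ℕ => q.Prime ∧ 1 ≤ ⌊genPoly F c q + w⌋ ∧
      4 * ⌊genPoly F c q + w⌋.toNat ^ 2 ≤ z ⌊genPoly F c q + w⌋.toNat + H)).card : ℝ) ≤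
      C * (H : ℝ) ^ (1 + ε) * (((Ioc X (2 * X)).filter Nat.Prime).card / Real.log X ^ 2) := by
  obtain ⟨hcF, hmax, hc, hn, hb⟩ := hF
  obtain ⟨β, hβ, hβ1, N₀, h1⟩ := Pool.Agent.Run7.h844.RP.primes_fam F e hcF hn hc hmax c hb
  obtain ⟨C, hC, T₀, h2⟩ := Pool.Agent.Run7.h844.RP.fam9 ε hε
  obtain ⟨X₁, hX₁⟩ := eventually_atTop.1 (((tendsto_rpow_atTop hβ).comp (tendsto_natCast_atTop_atTop (R := ℝ))).eventually_ge_atTop T₀)
  refine ⟨C / β ^ 2, by positivity, N₀ + X₁ + 2, fun X hX w H hH => ?_⟩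
  obtain ⟨-, h3⟩ := h1 X (by omega) w
  have h4 := h2 ((X : ℝ) ^ β) (hX₁ X (by omega)) ℕ _ _ h3 H hH
  have hX0 : (0 : ℝ) < X := by exact_mod_cast (by omega : 0 < X)
  have hl : 0 < Real.log X := Real.log_pos (by exact_mod_cast (by omega : 1 < X))
  rw [Real.log_rpow hX0] at h4
  have h5 : (Ioc X (2 * X)).filter (fun q : ℕ => q.Prime ∧ 1 ≤ ⌊genPoly F c q + w⌋ ∧
      4 * ⌊genPoly F c q + w⌋.toNat ^ 2 ≤ z ⌊genPoly F c q + w⌋.toNat + H) =
      (Pool.Agent.Run7.h844.RP.PB X).filter (fun i => 0 < Pool.Agent.Run7.h844.RP.vz F c w i ∧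
        4 * (Pool.Agent.Run7.h844.RP.vz F c w i).toNat ^ 2 ≤
          Pool.Agent.Run7.h844.RP.zm (Pool.Agent.Run7.h844.RP.vz F c w i).toNat + H) := by
    unfold Pool.Agent.Run7.h844.RP.PB
    rw [filter_filter]
    simp only [← z_eq]
    rfl
  rw [h5]
  refine h4.trans (le_of_eq ?_)
  have e1 : (β * Real.log X) ^ 2 = β ^ 2 * Real.log X ^ 2 := by ring
  have e2 : ((Ioc X (2 * X)).filter Nat.Prime).card = (Pool.Agent.Run7.h844.RP.PB X).card := rfl
  rw [e1, e2]
  field_simp

end Pool.Agent.Results.MP_9227d9_nt.ValuesAtPrimes
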